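import Pool.Agent.Q32.Woven.Final

/-!
# MP_85af01_co: connected woven graphs

Every finite connected woven graph with at least one edge is a star `K_{1,s}` with `s ≥ 2` or a
suitable caterpillar.  So there is no further connected woven graph.

The definitions (`IsCopy`, `IsKWoven`, `IsWoven`, `IsStar`, `IsSuitableCaterpillar`) are in
`Pool/Agent/Q32/Woven/Defs.lean`.
-/

namespace Pool.Agent.Results.MP_85af01_co.WovenClassification

open Q32Woven

theorem result (V : Type) [Fintype V] (G : SimpleGraph V) (hG : G.Connected)
    (hE : ∃ x y, G.Adj x y) (hw : IsWoven G) :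
    IsStar G ∨ ∃ s, IsSuitableCaterpillar G s :=
  classification G hG hE hw

end Pool.Agent.Results.MP_85af01_co.WovenClassification
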